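import Pool.Agent.H851Z.KCM.Final

set_option autoImplicit false

namespace Pool.Agent.Results.MP_6f5b46_pr.AHardCore

open MeasureTheory Pool.Agent.H851Z.KCM

/-- For some `q`, the FA-4f model on the square lattice has a stationary measure that is not a
mixture of the conditioned measures `π_β`. -/
theorem result : ∃ q : ℝ, 0 < q ∧ q < 1 ∧ IsKCM fa4 ∧ (∃ P, IsSemigroup q fa4 P) ∧
    ∃ μ : Measure Cfg, IsProbabilityMeasure μ ∧
      (∀ P, IsSemigroup q fa4 P → IsStationary P μ) ∧ ¬ Representable q fa4 μ :=
  main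

end Pool.Agent.Results.MP_6f5b46_pr.AHardCore
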